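import Pool.Agent.helper53.DC.SpecH

set_option autoImplicit false

namespace Pool.Agent.helper24.DC

open Pool.Agent.helper53.DC

theorem H3a_mem_hs {X Wl : Type} (S : WS X Wl) (w : Wl) (b : Bool) (x : X) :
    x ∈ S.hs w b ↔ (x ∈ S.H w ↔ b = true) := Iff.rfl

theorem H3a_hs_uniq {X Wl : Type} (S : WS X Wl) (w : Wl) (b b' : Bool) (x : X)
    (h : x ∈ S.hs w b) (h' : x ∈ S.hs w b') : b = b' := by
  rw [H3a_mem_hs] at h h'
  cases b <;> cases b' <;> simp_all

theorem H3a_sep {X Wl : Type} (S : WS X Wl) (w : Wl) (b : Bool) (x y : X)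
    (h : x ∈ S.hs w b) (h' : y ∉ S.hs w b) : S.Sep w y x := by
  rw [H3a_mem_hs] at h h'
  unfold WS.Sep
  cases b <;> simp_all

section

variable {B W : Type} [Group W] {M : CoxeterMatrix B} (cs : CoxeterSystem M W)

theorem H3a_refl_side (r : Wall cs) (x : W) (b : Bool) :
    r.1 * x ∈ (cw cs).hs r b ↔ x ∉ (cw cs).hs r b := by
  rw [H3a_mem_hs, H3a_mem_hs, mem_cw, mem_cw]
  have h1 : r.1 * (r.1 * x) = x := by
    rw [← mul_assoc, r.2.mul_self, one_mul]
  rw [h1]
  have h2 := r.2.length_mul_right_ne x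
  cases b
  · simp only [Bool.false_eq_true, iff_false, not_lt]
    constructor
    · intro h h3; exact absurd (lt_of_le_of_ne h h2) (not_lt.mpr h3)
    · intro h; by_contra h3; exact h (not_le.mp h3).le
  · simp only [iff_true, not_lt]
    constructor
    · intro h; exact h.le
    · intro h; exact lt_of_le_of_ne h h2.symm

theorem H3a_near (h11 : A11_stmt) (r : Wall cs) (x : W) (b : Bool) :
    ∃ z, z ∈ (cw cs).hs r b ∧ 2 * dd cs x z ≤ DD cs r x + 1 := by
  obtain ⟨z, hz, h1, _⟩ := h11 cs r x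
  by_cases hb : z ∈ (cw cs).hs r b
  · exact ⟨z, hb, by omega⟩
  · refine ⟨r.1 * z, (H3a_refl_side cs r z b).2 hb, ?_⟩
    have h2 := dd_tri cs x z (r.1 * z)
    have h3 : dd cs z (r.1 * z) = 1 := (mem_Car cs r z).1 hz
    omega

end

theorem H3a (h18 : A18_stmt) (h11 : A11_stmt) (h5 : A5_stmt) (h4b : A4b_stmt) : H3a_stmt := by
  intro B W _ M cs r r' hd n c p q hp hq
  obtain ⟨b, hb⟩ := h18 cs r r' hd
  set h : W := r'.1 * r.1 with hh
  set α := (cw cs).hs r b with hα
  have hin : ∀ x ∈ α, h * x ∈ α := by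
    intro x hx
    have := hb.1 ⟨x, hx, rfl⟩
    rw [hh, mul_assoc]
    exact this
  have hpow : ∀ (k : ℕ) (x : W), x ∈ α → h ^ k * x ∈ α := by
    intro k
    induction k with
    | zero => intro x hx; simpa using hx
    | succ k ih =>
      intro x hx
      rw [pow_succ', mul_assoc]
      exact hin _ (ih x hx)
  obtain ⟨y, hy, hy'⟩ : ∃ y ∈ α, h⁻¹ * y ∉ α := by
    obtain ⟨y, hy, hy2⟩ := Set.exists_of_ssubset hb
    refine ⟨y, hy, fun h3 => hy2 ⟨h⁻¹ * y, h3, ?_⟩⟩
    show r'.1 * (r.1 * (h⁻¹ * y)) = y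
    rw [hh]; group
  obtain ⟨p', hp', hpp⟩ := H3a_near cs h11 r p (!b)
  obtain ⟨q', hq', hqq⟩ := H3a_near cs h11 r q b
  have hp'' : p' ∉ α := by
    intro h3
    have := H3a_hs_uniq (cw cs) r _ _ p' hp' h3
    cases b <;> simp_all
  -- half-spaces of translates
  have hch : ∀ k : ℕ, ∃ bk : Bool, ∀ x : W, h ^ k * x ∈ (cw cs).hs (h ^ k • r) bk ↔ x ∈ α := by
    intro k
    obtain ⟨e, he⟩ := h4b cs (h ^ k) r
    refine ⟨xor b e, fun x => ?_⟩
    rw [he x]
    have : xor (xor b e) e = b := by cases b <;> cases e <;> rfl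
    rw [this]
  choose bk hbk using hch
  have hbk' : ∀ (k : ℕ) (x : W), x ∈ (cw cs).hs (h ^ k • r) (bk k) ↔ (h ^ k)⁻¹ * x ∈ α := by
    intro k x
    have := hbk k ((h ^ k)⁻¹ * x)
    rw [mul_inv_cancel_left] at this
    exact this
  have hqk : ∀ k ≤ n, h ^ n * q' ∈ (cw cs).hs (h ^ k • r) (bk k) := by
    intro k hk
    rw [hbk']
    have : (h ^ k)⁻¹ * (h ^ n * q') = h ^ (n - k) * q' := by
      rw [← mul_assoc]
      congr 1
      rw [inv_mul_eq_iff_eq_mul, ← pow_add]
      congr 1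
      omega
    rw [this]
    exact hpow _ _ hq'
  have hpk : ∀ k, p' ∉ (cw cs).hs (h ^ k • r) (bk k) := by
    intro k
    rw [hbk']
    intro h3
    apply hp''
    have := hpow k _ h3
    rwa [mul_inv_cancel_left] at this
  have hinj : ∀ k l, k < l → l ≤ n → h ^ k • r ≠ h ^ l • r := by
    intro k l hkl hl heq
    have h1 := hqk k (by omega)
    have h2 := hqk l hl
    rw [← heq] at h2
    have h3 := H3a_hs_uniq (cw cs) _ _ _ _ h1 h2
    have h4 : h ^ k * y ∈ (cw cs).hs (h ^ k • r) (bk k) := (hbk k y).2 hy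
    rw [h3, heq, hbk'] at h4
    apply hy'
    have h5 := hpow (l - k - 1) _ h4
    have h6 : h ^ (l - k - 1) * ((h ^ l)⁻¹ * (h ^ k * y)) = h⁻¹ * y := by
      obtain ⟨j, rfl⟩ : ∃ j, l = k + 1 + j := ⟨l - (k + 1), by omega⟩
      rw [show k + 1 + j - k - 1 = j by omega]
      rw [← mul_assoc, ← mul_assoc]
      congr 1
      group
    rw [h6] at h5
    exact h5
  -- counting
  obtain ⟨hfin, hcard⟩ := h5 cs p' (h ^ n * q')
  have hn : n + 1 ≤ dd cs p' (h ^ n * q') := by
    rw [← hcard]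
    classical
    have h1 : ((Finset.range (n + 1)).image (fun k => h ^ k • r)).card = n + 1 := by
      rw [Finset.card_image_of_injOn, Finset.card_range]
      intro k hk l hl hkl
      simp only [Finset.coe_range, Set.mem_Iio] at hk hl
      rcases lt_trichotomy k l with h3 | h3 | h3
      · exact absurd hkl (hinj k l h3 (by omega))
      · exact h3
      · exact absurd hkl.symm (hinj l k h3 (by omega))
    rw [← h1, ← Set.ncard_coe_finset]
    refine Set.ncard_le_ncard ?_ hfin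
    intro v hv
    simp only [Finset.coe_image, Finset.coe_range, Set.mem_image, Set.mem_Iio] at hv
    obtain ⟨k, hk, rfl⟩ := hv
    exact H3a_sep (cw cs) _ _ _ _ (hqk k (by omega)) (hpk k)
  have h1 := dd_tri cs p' p (h ^ n * q')
  have h2 := dd_tri cs p (h ^ n * q) (h ^ n * q')
  rw [dd_left] at h2
  rw [dd_comm cs p' p] at h1
  omega

end Pool.Agent.helper24.DC
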