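import Pool.Agent.helper53.DC.SpecK

set_option autoImplicit false

namespace Pool.Agent.helper24.DC

open Pool.Agent.helper53.DC

section

variable {X Wl : Type} (S : WS X Wl)

/-- side data of a chain element -/
theorem K1_aux (hG : S.Good) (h1 : W1_stmt) (h2 : W2_stmt) (h3 : W3_stmt) (g0 : ℕ) (h0 : S.G0 g0)
    (m n : ℕ) (u : ℕ → Wl) (hm : 2 * g0 < m) (hN : S.NB m n u)
    (V : ℕ → ℕ → Wl) (hV : ∀ i, 0 < i → i < n → S.IsCh m (u (i - 1)) (u (i + 1)) (V i))
    (hX : ∀ i, 0 < i → i < n → ∀ c < m, S.Cross (V i c) (u i))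
    (i c c' : ℕ) (hi : 0 < i) (hi' : i + 1 < n) (hc : c < m) (hc' : c' < m)
    (hor : g0 ≤ c' ∨ c < m - g0) : V i c ≠ V (i + 1) c' ∧ ¬ S.Cross (V i c) (V (i + 1) c') := by
  classical
  obtain ⟨w1, w2, w3, w4, w5, w6, w7, w8, w9⟩ := h1 S hG
  obtain ⟨o1, o2, o3, o4, o5, o6, o7, o8, o9, o10, o11⟩ := h3 S hG
  have hA := hV i hi (by omega)
  have hB := hV (i + 1) (by omega) hi'
  rw [show i + 1 - 1 = i by omega] at hB
  have hXA := hX i hi (by omega)
  have hXB := hX (i + 1) (by omega) hi'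
  have hne : V i c ≠ V (i + 1) c' := by
    intro he
    have hd := (o2 _ _ _ (hB.1 c' hc')).2.1
    rw [← he] at hd
    exact hd.2 (w2 _ _ (hXA c hc))
  refine ⟨hne, fun hx => ?_⟩
  rcases hor with hor | hor
  · -- (a)
    have hd : S.Dis (V i c) (u (i + 1)) := w4 _ _ (o2 _ _ _ (hA.1 c hc)).2.2
    have hF := h0 _ _ hd ((Finset.range (c' + 1)).image (V (i + 1))) (by
      intro v hv
      rw [Finset.mem_image] at hv
      obtain ⟨j, hj, rfl⟩ := hv
      rw [Finset.mem_range] at hj
      refine ⟨?_, hXB j (by omega)⟩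
      rcases Nat.lt_or_ge j c' with hjc | hjc
      · exact w2 _ _ (h2 S hG _ _ _ _ (hB.2 j c' hjc hc').1 (hXA c hc) hx)
      · have : j = c' := by omega
        rw [this]; exact w2 _ _ hx)
    rw [Finset.card_image_of_injOn, Finset.card_range] at hF
    · omega
    · intro a ha b hb hab
      simp only [Finset.coe_range, Set.mem_Iio] at ha hb
      by_contra hne
      exact (o10 _ _ _ _ hB a b (by omega) (by omega) hne).1 hab
  · have hd : S.Dis (V (i + 1) c') (u i) := w4 _ _ (o2 _ _ _ (hB.1 c' hc')).2.1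
    have hF := h0 _ _ hd ((Finset.Ico c m).image (V i)) (by
      intro v hv
      rw [Finset.mem_image] at hv
      obtain ⟨j, hj, rfl⟩ := hv
      rw [Finset.mem_Ico] at hj
      refine ⟨?_, hXA j (by omega)⟩
      rcases Nat.lt_or_ge c j with hjc | hjc
      · exact w2 _ _ (h2 S hG _ _ _ _ (hA.2 c j hjc hj.2).2 (w2 _ _ hx) (hXB c' hc'))
      · have : j = c := by omega
        rw [this]; exact hx)
    rw [Finset.card_image_of_injOn, Nat.card_Ico] at hF
    · omega
    · intro a ha b hb hab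
      simp only [Finset.coe_Ico, Set.mem_Ico] at ha hb
      by_contra hne
      exact (o10 _ _ _ _ hA a b (by omega) (by omega) hne).1 hab

end

theorem K1 (h1 : W1_stmt) (h2 : W2_stmt) (h3 : W3_stmt) : K1_stmt := by
  intro X Wl S hG g0 h0 m n u hm hN i hi hin
  have haux := K1_aux S hG h1 h2 h3 g0 h0 m n u hm hN
  obtain ⟨w1, w2, w3, w4, w5, w6, w7, w8, w9⟩ := h1 S hG
  obtain ⟨o1, o2, o3, o4, o5, o6, o7, o8, o9, o10, o11⟩ := h3 S hG
  have hV0 : ∀ i, ∃ v : ℕ → Wl, 0 < i → i < n → S.IsCh m (u (i - 1)) (u (i + 1)) v := by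
    intro j
    by_cases hj : 0 < j ∧ j < n
    · have := hN.ch (j - 1) (by omega)
      obtain ⟨v, hv⟩ := this
      refine ⟨v, fun _ _ => ?_⟩
      rwa [show j - 1 + 2 = j + 1 by omega] at hv
    · exact ⟨fun _ => u 0, fun h h' => absurd ⟨h, h'⟩ hj⟩
  choose V hV using hV0
  have hX : ∀ i, 0 < i → i < n → ∀ c < m, S.Cross (V i c) (u i) := by
    intro j hj hjn c hc
    have c1 := hN.cr (j - 1) (by omega)
    rw [show j - 1 + 1 = j by omega] at c1
    exact w2 _ _ (h2 S hG _ _ _ _ ((hV j hj hjn).1 c hc) (w2 _ _ c1) (hN.cr j hjn))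
  have haux := haux V hV hX
  -- sides
  have hβ0 : ∀ j c, ∃ b : Bool, 0 < j → j < n → c < m →
      S.On (u (j + 1)) (V j c) b ∧ S.On (u (j - 1)) (V j c) (!b) := by
    intro j c
    by_cases hj : 0 < j ∧ j < n ∧ c < m
    · obtain ⟨b, hb1, hb2⟩ := (hV j hj.1 hj.2.1).1 c hj.2.2
      refine ⟨!b, fun _ _ _ => ⟨hb2, ?_⟩⟩
      rwa [Bool.not_not]
    · exact ⟨true, fun h h' h'' => absurd ⟨h, h', h''⟩ hj⟩
  choose β hβ using hβ0
  have hplus : ∀ k i c b, b - i = k → 0 < i → i < b → b ≤ n → g0 ≤ c → c < m - g0 →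
      S.On (u b) (V i c) (β i c) := by
    intro k
    induction k with
    | zero => intro i c b hk _ hib; omega
    | succ k ih =>
      intro i c b hk hi hib hbn hc hc'
      rcases Nat.lt_or_ge (i + 1) b with hb | hb
      · have hI := ih (i + 1) g0 b (by omega) (by omega) hb hbn le_rfl (by omega)
        obtain ⟨hne, hnc⟩ := haux i c g0 hi (by omega) (by omega) (by omega) (Or.inl le_rfl)
        have s1 := (hβ (i + 1) g0 (by omega) (by omega) (by omega)).2
        rw [show i + 1 - 1 = i by omega] at s1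
        have s2 := (hβ i c hi (by omega) (by omega)).1
        have t1 : S.On (V i c) (V (i + 1) g0) (!(β (i + 1) g0)) :=
          o6 _ _ _ _ (hX i hi (by omega) c (by omega)) s1 hne hnc
        have t2 : S.On (V (i + 1) g0) (V i c) (β i c) :=
          o6 _ _ _ _ (hX (i + 1) (by omega) (by omega) g0 (by omega)) s2 hne.symm
            (fun h => hnc (w2 _ _ h))
        exact o3 _ _ _ _ ⟨_, hI, t1⟩ t2
      · have : b = i + 1 := by omega
        subst this
        exact (hβ i c hi (by omega) (by omega)).1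
  have hminus : ∀ k i c a, i - a = k → a < i → i < n → g0 ≤ c → c < m - g0 →
      S.On (u a) (V i c) (!(β i c)) := by
    intro k
    induction k with
    | zero => intro i c a hk hai; omega
    | succ k ih =>
      intro i c a hk hai hin hc hc'
      rcases Nat.lt_or_ge a (i - 1) with ha | ha
      · have hI := ih (i - 1) g0 a (by omega) ha (by omega) le_rfl (by omega)
        obtain ⟨hne, hnc⟩ := haux (i - 1) g0 c (by omega) (by omega) (by omega) (by omega) (Or.inl hc)
        rw [show i - 1 + 1 = i by omega] at hne hnc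
        have s1 := (hβ (i - 1) g0 (by omega) (by omega) (by omega)).1
        rw [show i - 1 + 1 = i by omega] at s1
        have s2 := (hβ i c (by omega) hin (by omega)).2
        have t1 : S.On (V i c) (V (i - 1) g0) (β (i - 1) g0) :=
          o6 _ _ _ _ (hX i (by omega) hin c (by omega)) s1 hne.symm (fun h => hnc (w2 _ _ h))
        have t2 : S.On (V (i - 1) g0) (V i c) (!(β i c)) :=
          o6 _ _ _ _ (hX (i - 1) (by omega) (by omega) g0 (by omega)) s2 hne hnc
        refine o3 _ _ _ _ ⟨_, hI, ?_⟩ t2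
        rwa [Bool.not_not]
      · have : a = i - 1 := by omega
        subst this
        exact (hβ i c (by omega) hin (by omega)).2
  refine ⟨fun c => V i (g0 + c), fun c hc => hX i hi hin _ (by omega), ?_⟩
  intro a b ha hb hbn
  have hpc : ∀ c < m - 2 * g0, S.On (u b) (V i (g0 + c)) (β i (g0 + c)) := fun c hc =>
    hplus _ i (g0 + c) b rfl hi hb hbn (by omega) (by omega)
  have hmc : ∀ c < m - 2 * g0, S.On (u a) (V i (g0 + c)) (!(β i (g0 + c))) := fun c hc =>
    hminus _ i (g0 + c) a rfl ha hin (by omega) (by omega)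
  refine ⟨fun c hc => ⟨_, hmc c hc, ?_⟩, fun c c' hcc' hc' => ⟨?_, ?_⟩⟩
  · rw [Bool.not_not]; exact hpc c hc
  · obtain ⟨b1, e1, e2⟩ := ((hV i hi hin).2 (g0 + c) (g0 + c') (by omega) (by omega)).1
    have s2 := (hβ i (g0 + c) hi hin (by omega)).2
    have := w8 _ _ _ _ e1 s2
    subst this
    exact ⟨_, hmc c (by omega), e2⟩
  · obtain ⟨b1, e1, e2⟩ := ((hV i hi hin).2 (g0 + c) (g0 + c') (by omega) (by omega)).2
    have s2 := (hβ i (g0 + c') hi hin (by omega)).1
    have := w8 _ _ _ _ e2 s2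
    refine ⟨b1, e1, ?_⟩
    rw [this]
    exact hpc c' hc'

end Pool.Agent.helper24.DC
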