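import Pool.Agent.helper53.DC.SpecK

set_option autoImplicit false

namespace Pool.Agent.helper24.DC

open Pool.Agent.helper53.DC

theorem K3 (hK1 : K1_stmt) (h1 : W1_stmt) (h2 : W2_stmt) (h3 : W3_stmt) : K3_stmt := by
  classical
  intro X Wl S hG g0 h0 m n u hm hN v v' hvv hv hv' hdv hdv'
  obtain ⟨w1, w2, w3, w4, w5, w6, w7, w8, w9⟩ := h1 S hG
  obtain ⟨o1, o2, o3, o4, o5, o6, o7, o8, o9, o10, o11⟩ := h3 S hG
  have hsd : ∀ k a b, 0 < k → S.SepCh k a b → S.Dis a b := by
    rintro k a b hk ⟨t, ht⟩
    exact (o2 _ _ _ (ht.1 0 hk)).1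
  have hnd : ∀ a b, (a = b ∨ S.Cross a b) → ∀ k, 0 < k → ¬ S.SepCh k a b := by
    intro a b hab k hk hs
    have hd := hsd k a b hk hs
    rcases hab with h | h
    · exact hd.1 h
    · exact hd.2 h
  rcases Nat.lt_or_ge n 2 with hn | hn
  · rcases Nat.eq_zero_or_pos n with h00 | hpos
    · subst h00
      exact ⟨0, le_rfl, hnd _ _ hv _ (by omega), hnd _ _ hv' _ (by omega)⟩
    · have hn1 : n = 1 := by omega
      subst hn1
      refine ⟨0, by omega, hnd _ _ hv _ (by omega), ?_⟩
      intro hs
      obtain ⟨t, ht⟩ := hs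
      have c01 := hN.cr 0 (by omega)
      rw [zero_add] at c01
      have hd0 := hdv' 0 (by omega)
      have hd1 := hdv 1 (by omega) le_rfl
      have c1 : S.Cross (u 1) v' := by
        rcases hv' with h | h
        · rw [← h] at hd0
          exact absurd c01 hd0.2
        · exact h
      have c0 : S.Cross v (u 0) := by
        rcases hv with h | h
        · rw [h] at hd0
          exact absurd hvv hd0.2
        · exact w2 _ _ h
      have hF := h0 _ _ hd1 ((Finset.range (g0 + 1)).image t) (by
        intro w hw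
        rw [Finset.mem_image] at hw
        obtain ⟨c, hc, rfl⟩ := hw
        rw [Finset.mem_range] at hc
        exact ⟨w2 _ _ (h2 S hG _ _ _ _ (ht.1 c hc) (w2 _ _ c01) c1),
          w2 _ _ (h2 S hG _ _ _ _ (ht.1 c hc) c0 hvv)⟩)
      rw [Finset.card_image_of_injOn, Finset.card_range] at hF
      · omega
      · intro a ha b hb hab
        simp only [Finset.coe_range, Set.mem_Iio] at ha hb
        by_contra hne
        exact (o10 _ _ _ _ ht a b ha hb hne).1 hab
  · exfalso
    obtain ⟨σ, hσ1, hσ2⟩ := hK1 S hG g0 h0 m n u (by omega) hN 1 (by omega) (by omega)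
    have hσ := hσ2 0 n (by omega) (by omega) le_rfl
    set m' := m - 2 * g0 with hm'
    have hinj' : ∀ C : Finset ℕ, C ⊆ Finset.range m' → (C.image σ).card = C.card := by
      intro C hC
      refine Finset.card_image_of_injOn ?_
      intro a ha b hb hab
      by_contra hne
      exact (o10 _ _ _ _ hσ a b (Finset.mem_range.1 (hC ha)) (Finset.mem_range.1 (hC hb)) hne).1 hab
    have hcnt : ∀ z, S.Dis (u 1) z → ((Finset.range m').filter (fun c => S.Cross (σ c) z)).card ≤ g0 := by
      intro z hz
      rw [← hinj' _ (Finset.filter_subset _ _)]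
      refine h0 _ _ hz _ ?_
      intro w hw
      rw [Finset.mem_image] at hw
      obtain ⟨c, hc, rfl⟩ := hw
      rw [Finset.mem_filter, Finset.mem_range] at hc
      exact ⟨hσ1 c hc.1, hc.2⟩
    have hd1 := hdv 1 (by omega) (by omega)
    have hd1' := hdv' 1 (by omega)
    have e1 := hcnt v hd1
    have e2 := hcnt v' hd1'
    obtain ⟨c, hc, hcv, hcv'⟩ : ∃ c < m', ¬ S.Cross (σ c) v ∧ ¬ S.Cross (σ c) v' := by
      by_contra hcon
      push Not at hcon
      have hsub : Finset.range m' ⊆ (Finset.range m').filter (fun c => S.Cross (σ c) v) ∪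
          (Finset.range m').filter (fun c => S.Cross (σ c) v') := by
        intro c hc
        rw [Finset.mem_union, Finset.mem_filter, Finset.mem_filter]
        by_cases h : S.Cross (σ c) v
        · left; exact ⟨hc, h⟩
        · right; exact ⟨hc, hcon c (Finset.mem_range.1 hc) h⟩
      have h5 := Finset.card_le_card hsub
      have h6 := Finset.card_union_le ((Finset.range m').filter (fun c => S.Cross (σ c) v))
          ((Finset.range m').filter (fun c => S.Cross (σ c) v'))
      rw [Finset.card_range] at h5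
      omega
    have hne : ∀ z, S.Dis (u 1) z → z ≠ σ c := by
      intro z hz h
      rw [h] at hz
      exact hz.2 (w2 _ _ (hσ1 c hc))
    obtain ⟨b, hb1, hb2⟩ := hσ.1 c hc
    have on1 : S.On v (σ c) b := by
      rcases hv with h | h
      · rw [← h]; exact hb1
      · exact o6 _ _ _ _ (w2 _ _ h) hb1 (hne v hd1) (fun h => hcv (w2 _ _ h))
    have on2 : S.On v' (σ c) (!b) := by
      rcases hv' with h | h
      · rw [← h]; exact hb2
      · exact o6 _ _ _ _ (w2 _ _ h) hb2 (hne v' hd1') (fun h => hcv' (w2 _ _ h))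
    exact (o2 _ _ _ ⟨b, on1, on2⟩).1.2 hvv

end Pool.Agent.helper24.DC
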