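import Mathlib
import Pool.Agent.helper58.DC.Spec1

/-!
# Project dq (MP_baa4d7_al): module AS, assembled chains
-/

set_option autoImplicit false

namespace Pool.Agent.helper24.DC

open Pool.Agent.helper58.DC

lemma AS_mem_nrm {G : Type} [Group G] (C : Finset (Subgroup G)) (x : G) :
    x ∈ nrm C ↔ ∀ P ∈ C, x ∈ Subgroup.normalizer (P : Set G) := by
  unfold nrm
  simp only [Subgroup.mem_iInf]

lemma AS_nrm {G T : Type} [Group G] [Finite G] [Fintype T] (hPI : PI_stmt)
    (C D : T → Finset (Subgroup G)) (W : Finset (T → ℕ))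
    (h : ∀ t P, P ∈ D t ↔ ∃ r ∈ W, nth (C t) (r t) = P) :
    nrm (asmC C W) = Subgroup.pi Set.univ fun t => nrm (D t) := by
  classical
  ext x
  rw [AS_mem_nrm, Subgroup.mem_pi]
  constructor
  · intro hx t _
    rw [AS_mem_nrm]
    intro P hP
    obtain ⟨r, hr, rfl⟩ := (h t P).1 hP
    have h1 := hx _ (Finset.mem_image_of_mem _ hr)
    rw [(hPI G T 0 _ (fun _ => ⊥)).1, Subgroup.mem_pi] at h1
    exact h1 t (Set.mem_univ t)
  · intro hx P hP
    obtain ⟨r, hr, rfl⟩ := Finset.mem_image.1 hP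
    rw [(hPI G T 0 _ (fun _ => ⊥)).1, Subgroup.mem_pi]
    intro t _
    have h1 := hx t (Set.mem_univ t)
    rw [AS_mem_nrm] at h1
    exact h1 _ ((h t _).2 ⟨r, hr, rfl⟩)

theorem AS (hNT : NT_stmt) (hRB : RB_stmt) (hPI : PI_stmt) (hPO : PO_stmt) : AS_stmt := by
  classical
  intro G T _ _ _ p _ hop C hC W hW
  obtain ⟨hW1, hW2, hW3, hW4⟩ := hW
  have hch : ∀ t, IsChain (· ≤ ·) (C t : Set (Subgroup G)) := fun t => (hC t).chain
  have hR := fun t => (hRB G p hop (C t)).1 (hC t)
  have hpos : ∀ t, 0 < (C t).card := fun t => Finset.card_pos.2 ⟨⊥, (hR t).2.1⟩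
  have hlt : ∀ r ∈ W, ∀ t, r t < (C t).card := by
    intro r hr t
    have h1 : r t ≤ (C t).card - 1 := hW3 r hr t
    have h2 := hpos t
    omega
  have N1 := fun t => (hNT G (C t) (hch t)).1
  have N2 := fun t => (hNT G (C t) (hch t)).2.1
  have N3 := fun t => (hNT G (C t) (hch t)).2.2
  have hmem : ∀ r ∈ W, ∀ t, nth (C t) (r t) ∈ C t := fun r hr t => (N2 t _ (hlt r hr t)).1
  have hrk : ∀ r ∈ W, ∀ t, rk (C t) (nth (C t) (r t)) = r t := fun r hr t =>
    (N2 t _ (hlt r hr t)).2
  let X : (T → ℕ) → Subgroup (T → G) := fun r => Subgroup.pi Set.univ fun t => nth (C t) (r t)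
  have hX : asmC C W = W.image X := rfl
  have hle : ∀ r ∈ W, ∀ r' ∈ W, (X r ≤ X r' ↔ r ≤ r') := by
    intro r hr r' hr'
    have h1 := (hPI G T p (fun t => nth (C t) (r t)) (fun t => nth (C t) (r' t))).2.2.1
    rw [show (X r ≤ X r') = ((Subgroup.pi Set.univ fun t => nth (C t) (r t) : Subgroup (T → G)) ≤
      Subgroup.pi Set.univ fun t => nth (C t) (r' t)) from rfl, h1, Pi.le_def]
    refine forall_congr' fun t => ?_
    rw [← N3 t _ (hmem r hr t) _ (hmem r' hr' t), hrk r hr t, hrk r' hr' t]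
  have hinj : Set.InjOn X W := by
    intro r hr r' hr' h
    exact le_antisymm ((hle r hr r' hr').1 h.le) ((hle r' hr' r hr).1 h.ge)
  -- the terms with a bound
  have hbelow : ∀ r ∈ W, ∀ t P, P ∈ (C t).filter (· ≤ nth (C t) (r t)) ↔
      ∃ r' ∈ W.filter (· ≤ r), nth (C t) (r' t) = P := by
    intro r hr t P
    rw [Finset.mem_filter]
    constructor
    · rintro ⟨hP, hPr⟩
      have h1 : rk (C t) P ≤ r t := by
        rw [← hrk r hr t]
        exact (N3 t _ hP _ (hmem r hr t)).2 hPr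
      obtain ⟨r', hr', hj⟩ := hW4 t (rk (C t) P) (h1.trans (hW3 r hr t))
      by_cases hrr : r' ≤ r
      · refine ⟨r', Finset.mem_filter.2 ⟨hr', hrr⟩, ?_⟩
        rw [hj]
        exact (N1 t P hP).2
      · have hne : r ≠ r' := by
          rintro rfl
          exact hrr le_rfl
        have h2 : r ≤ r' := (hW2 hr hr' hne).resolve_right hrr
        have h3 : r t = rk (C t) P := le_antisymm ((h2 t).trans hj.le) h1
        refine ⟨r, Finset.mem_filter.2 ⟨hr, le_rfl⟩, ?_⟩
        rw [h3]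
        exact (N1 t P hP).2
    · rintro ⟨r', hr', rfl⟩
      obtain ⟨hr', hrr⟩ := Finset.mem_filter.1 hr'
      refine ⟨hmem r' hr' t, ?_⟩
      rw [← N3 t _ (hmem r' hr' t) _ (hmem r hr t), hrk r hr t, hrk r' hr' t]
      exact hrr t
  have hall : ∀ t P, P ∈ C t ↔ ∃ r' ∈ W, nth (C t) (r' t) = P := by
    intro t P
    constructor
    · intro hP
      have h1 := (N1 t P hP).1
      have h2 : rk (C t) P ≤ (C t).card - 1 := by omega
      obtain ⟨r', hr', hj⟩ := hW4 t (rk (C t) P) h2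
      refine ⟨r', hr', ?_⟩
      rw [hj]
      exact (N1 t P hP).2
    · rintro ⟨r', hr', rfl⟩
      exact hmem r' hr' t
  -- the zero vector
  obtain ⟨r0, hr0, hr0min⟩ : ∃ r0 ∈ W, ∀ r ∈ W, r0 ≤ r := by
    obtain ⟨r0, hr0⟩ := W.exists_minimal hW1
    refine ⟨r0, hr0.1, fun r hr => ?_⟩
    by_cases hne : r0 = r
    · exact hne.le
    · rcases hW2 hr0.1 hr hne with h | h
      · exact h
      · exact hr0.2 hr h
  have hr00 : ∀ t, r0 t = 0 := by
    intro t
    obtain ⟨r, hr, hrt⟩ := hW4 t 0 (Nat.zero_le _)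
    have h1 : r0 t ≤ r t := hr0min r hr t
    omega
  have hbot : X r0 = ⊥ := by
    have h1 : ∀ t, nth (C t) (r0 t) = ⊥ := by
      intro t
      rw [hr00 t]
      have h2 := (N1 t ⊥ (hR t).2.1).2
      have h3 : rk (C t) ⊥ = 0 := by
        unfold rk
        rw [Finset.card_eq_zero, Finset.filter_eq_empty_iff]
        intro P _ hP
        exact not_lt_bot hP
      rwa [h3] at h2
    show (Subgroup.pi Set.univ fun t => nth (C t) (r0 t)) = ⊥
    rw [eq_bot_iff]
    intro x hx
    rw [Subgroup.mem_pi] at hx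
    rw [Subgroup.mem_bot]
    funext t
    have := hx t (Set.mem_univ t)
    rw [h1 t, Subgroup.mem_bot] at this
    exact this
  have hnrm : nrm (asmC C W) = Subgroup.pi Set.univ fun t => nrm (C t) := AS_nrm hPI C C W hall
  refine ⟨?_, ?_, hnrm⟩
  · have hopT : IsOp p (⊤ : Subgroup (T → G)) ⊥ := by
      have h1 := (hPO G T p (fun _ => ⊤) (fun _ => ⊥)).2 (fun _ => hop)
      have h2 : (Subgroup.pi Set.univ fun _ : T => (⊤ : Subgroup G)) = ⊤ := by
        ext x
        simp [Subgroup.mem_pi]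
      have h3 : (Subgroup.pi Set.univ fun _ : T => (⊥ : Subgroup G)) = ⊥ := by
        ext x
        simp only [Subgroup.mem_pi, Subgroup.mem_bot, Set.mem_univ, forall_true_left]
        exact funext_iff.symm
      rwa [h2, h3] at h1
    refine (hRB (T → G) p hopT _).2 ⟨?_, ?_, ?_⟩
    · intro P hP Q hQ hne
      obtain ⟨r, hr, rfl⟩ := Finset.mem_image.1 (Finset.mem_coe.1 hP)
      obtain ⟨r', hr', rfl⟩ := Finset.mem_image.1 (Finset.mem_coe.1 hQ)
      have hrr : r ≠ r' := by
        rintro rfl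
        exact hne rfl
      rcases hW2 hr hr' hrr with h | h
      · exact Or.inl ((hle r hr r' hr').2 h)
      · exact Or.inr ((hle r' hr' r hr).2 h)
    · rw [hX, ← hbot]
      exact Finset.mem_image_of_mem _ hr0
    · intro P hP
      obtain ⟨r, hr, rfl⟩ := Finset.mem_image.1 hP
      refine ⟨?_, ?_⟩
      · refine ((hPI G T p (fun t => nth (C t) (r t)) (fun _ => ⊥)).2.1).2 fun t => ?_
        exact (hC t).isPGroup _ (hmem r hr t)
      · have h1 : (asmC C W).filter (· ≤ X r) = asmC C (W.filter (· ≤ r)) := by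
          ext Q
          rw [Finset.mem_filter]
          constructor
          · rintro ⟨hQ, hQr⟩
            obtain ⟨r', hr', rfl⟩ := Finset.mem_image.1 hQ
            exact Finset.mem_image_of_mem _
              (Finset.mem_filter.2 ⟨hr', (hle r' hr' r hr).1 hQr⟩)
          · intro hQ
            obtain ⟨r', hr', rfl⟩ := Finset.mem_image.1 hQ
            obtain ⟨hr'1, hr'2⟩ := Finset.mem_filter.1 hr'
            exact ⟨Finset.mem_image_of_mem _ hr'1, (hle r' hr'1 r hr).2 hr'2⟩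
        have h2 := AS_nrm hPI C (fun t => (C t).filter (· ≤ nth (C t) (r t))) (W.filter (· ≤ r))
          (fun t P => hbelow r hr t P)
        show IsOp p (nrm ((asmC C W).filter (· ≤ X r))) (X r)
        rw [h1, h2]
        refine (hPO G T p _ _).2 fun t => ?_
        exact ((hR t).2.2 _ (hmem r hr t)).2
  · rw [hX]
    exact Finset.card_image_of_injOn hinj

end Pool.Agent.helper24.DC
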