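import Pool.Agent.helper53.DC.SpecK

set_option autoImplicit false

namespace Pool.Agent.helper24.DC

open Pool.Agent.helper53.DC

theorem K2_bool : ∀ b f : Bool, b ≠ f → (!f) = b := by decide

theorem K2 (hK1 : K1_stmt) (h1 : W1_stmt) (h3 : W3_stmt) (h4 : W4_stmt) : K2_stmt := by
  classical
  intro X Wl S hG g0 h0 m n u hm hN v j hj hjn hn0 hnn hs
  obtain ⟨w1, w2, w3, w4, w5, w6, w7, w8, w9⟩ := h1 S hG
  obtain ⟨o1, o2, o3, o4, o5, o6, o7, o8, o9, o10, o11⟩ := h3 S hG
  obtain ⟨t, ht⟩ := hs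
  obtain ⟨σ, hσ1, hσ2⟩ := hK1 S hG g0 h0 m n u (by omega) hN j hj hjn
  have hσ := hσ2 0 n hj hjn le_rfl
  set m' := m - 2 * g0 with hm'
  have ht0 := ht.1 0 (by omega)
  have hd0 : S.Dis (u j) (t 0) := (o2 _ _ _ ht0).2.1
  have hinj : ∀ a < m', ∀ b < m', σ a = σ b → a = b := by
    intro a ha b hb hab
    by_contra hne
    exact (o10 _ _ _ _ hσ a b ha hb hne).1 hab
  have hinj' : ∀ C : Finset ℕ, C ⊆ Finset.range m' → (C.image σ).card = C.card := by
    intro C hC
    refine Finset.card_image_of_injOn ?_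
    intro a ha b hb hab
    exact hinj a (Finset.mem_range.1 (hC ha)) b (Finset.mem_range.1 (hC hb)) hab
  set C := (Finset.range m').filter (fun c => S.Cross (σ c) (t 0)) with hC
  have hCc : C.card ≤ g0 := by
    rw [← hinj' C (Finset.filter_subset _ _)]
    refine h0 _ _ hd0 _ ?_
    intro w hw
    rw [Finset.mem_image] at hw
    obtain ⟨c, hc, rfl⟩ := hw
    rw [hC, Finset.mem_filter, Finset.mem_range] at hc
    exact ⟨hσ1 c hc.1, hc.2⟩
  -- sides
  obtain ⟨e, he1, he2⟩ := ht0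
  have hside : ∀ c < m', ¬ S.Cross (σ c) (t 0) → S.Btw (σ c) (u 0) v ∨ S.Btw (σ c) (u n) v := by
    intro c hc hnc
    have hne : σ c ≠ t 0 := by
      intro h
      have := hσ1 c hc
      rw [h] at this
      exact hd0.2 (w2 _ _ this)
    have hon : S.On (σ c) (t 0) e := o6 _ _ _ _ (hσ1 c hc) he1 hne hnc
    have hb : S.Btw (t 0) (σ c) v := ⟨e, hon, he2⟩
    obtain ⟨b, hb1⟩ := w6 _ _ (w4 _ _ (o2 _ _ _ hb).2.1)
    have hv : S.On v (σ c) b := o3 _ _ _ _ (o1 _ _ _ hb) hb1
    obtain ⟨f, hf1, hf2⟩ := hσ.1 c hc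
    by_cases hbf : b = f
    · right
      subst hbf
      exact ⟨!b, hf2, by rw [Bool.not_not]; exact hv⟩
    · left
      refine ⟨f, hf1, ?_⟩
      have : (!f) = b := K2_bool b f hbf
      rw [this]; exact hv
  set P := ((Finset.range m').filter (fun c => ¬ S.Cross (σ c) (t 0))) with hP
  have hPc : C.card + P.card = m' := by
    rw [hC, hP, Finset.card_filter_add_card_filter_not, Finset.card_range]
  set P1 := P.filter (fun c => S.Btw (σ c) (u 0) v) with hP1
  set P2 := P.filter (fun c => ¬ S.Btw (σ c) (u 0) v) with hP2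
  have hPP : P1.card + P2.card = P.card := by
    rw [hP1, hP2, Finset.card_filter_add_card_filter_not]
  have hgen : ∀ (Q : Finset ℕ) (z : Wl), Q ⊆ Finset.range m' → (∀ c ∈ Q, S.Btw (σ c) z v) →
      g0 < Q.card → S.SepCh (g0 + 1) z v := by
    intro Q z hQ hQb hQc
    obtain ⟨w, hw, _⟩ := h4 S hG z v 1 g0 (Q.image σ) (by
      intro x hx
      rw [Finset.mem_image] at hx
      obtain ⟨c, hc, rfl⟩ := hx
      exact hQb c hc) (by
      intro E hE hEc
      rw [Finset.card_le_one]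
      intro a ha b hb
      by_contra hne
      have hx := hEc a ha b hb hne
      have ha' := hE ha
      have hb' := hE hb
      rw [Finset.mem_image] at ha' hb'
      obtain ⟨c, hc, rfl⟩ := ha'
      obtain ⟨c', hc', rfl⟩ := hb'
      have hcc : c ≠ c' := fun h => hne (by rw [h])
      exact (o10 _ _ _ _ hσ c c' (Finset.mem_range.1 (hQ hc)) (Finset.mem_range.1 (hQ hc')) hcc).2 hx)
      (by rw [hinj' Q hQ]; omega)
    exact ⟨w, hw⟩
  have hP1r : P1 ⊆ Finset.range m' := (Finset.filter_subset _ _).trans (Finset.filter_subset _ _)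
  have hP2r : P2 ⊆ Finset.range m' := (Finset.filter_subset _ _).trans (Finset.filter_subset _ _)
  rcases Nat.lt_or_ge g0 P1.card with h | h
  · refine hn0 (hgen P1 (u 0) hP1r ?_ h)
    intro c hc
    rw [hP1, Finset.mem_filter] at hc
    exact hc.2
  · refine hnn (hgen P2 (u n) hP2r ?_ (by omega))
    intro c hc
    rw [hP2, Finset.mem_filter, hP, Finset.mem_filter, Finset.mem_range] at hc
    rcases hside c hc.1.1 hc.1.2 with h' | h'
    · exact absurd h' hc.2
    · exact h'

end Pool.Agent.helper24.DC
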